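import Pool.Agent.Results.MP_8222c7_an.SemisimpleFails

/-
The frozen statement S05228 (homomorphism property of commutative amenable Banach algebras), derived from
the starting result SemisimpleFails. NOT handed in: it follows at once from C. J. Read, Commutative, radical
amenable Banach algebras (Studia Math. 140, 2000): take the unitization, the identity and the character.
-/

set_option autoImplicit false


namespace Pool.Agent.N677.Known.HomomorphismProperty

/-- The negation of the preceding statement: Every non-radical commutative amenable complex Banach algebra A has this property: two continuous homomorphisms from A into a commutative Banach algebra whose difference takes only quasinilpotent (radical) values are equal. -/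
theorem result :
    ¬ (∀ (A : Type) [NonUnitalNormedCommRing A] [NormedSpace ℂ A] [IsScalarTower ℂ A A]
      [SMulCommClass ℂ A A] [CompleteSpace A],
      (∃ a : A, ¬ quasispectrum ℂ a ⊆ {0}) →
      (∀ (E : Type) [NormedAddCommGroup E] [NormedSpace ℂ E] [CompleteSpace E]
        (l r : A →L[ℂ] (E →L[ℂ] E)),
        (∀ a b : A, l (a * b) = (l a).comp (l b)) →
        (∀ a b : A, r (a * b) = (r b).comp (r a)) →
        (∀ a b : A, (l a).comp (r b) = (r b).comp (l a)) →
        ∀ D : A →L[ℂ] (E →L[ℂ] ℂ),
          (∀ (a b : A) (x : E), D (a * b) x = D b (r a x) + D a (l b x)) →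
          ∃ f : E →L[ℂ] ℂ, ∀ (a : A) (x : E), D a x = f (r a x) - f (l a x)) →
      ∀ (B : Type) [NonUnitalNormedCommRing B] [NormedSpace ℂ B] [IsScalarTower ℂ B B]
        [SMulCommClass ℂ B B] [CompleteSpace B]
        (φ ψ : A →ₙₐ[ℂ] B), Continuous φ → Continuous ψ →
        (∀ a : A, quasispectrum ℂ (φ a - ψ a) ⊆ {0}) → φ = ψ) := by
  intro H
  obtain ⟨A, iA, iA', hc, -, -, ham, B, iB, iB', hcB, -, φ, ψ, hφ, hψ, -, -, hrad, hne⟩ :=
    Pool.Agent.Results.MP_8222c7_an.SemisimpleFails.result
  have hnt : Nontrivial A := by
    by_contra hn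
    rw [not_nontrivial_iff_subsingleton] at hn
    apply hne
    ext a
    rw [Subsingleton.elim a 0, map_zero, map_zero]
  haveI := hc
  haveI := hcB
  have h1 : ∃ a : A, ¬ quasispectrum ℂ a ⊆ {0} := by
    refine ⟨1, fun h => ?_⟩
    have h2 : (1 : ℂ) ∈ quasispectrum ℂ (1 : A) := by
      rw [quasispectrum_eq_spectrum_union_zero]
      left
      rw [spectrum.one_eq]
      rfl
    have h3 := h h2
    simp at h3
  have h2 := H A h1 ?_ B φ.toNonUnitalAlgHom ψ.toNonUnitalAlgHom hφ hψ ?_
  · apply hne
    ext a
    have := congrArg (fun f : A →ₙₐ[ℂ] B => f a) h2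
    exact this
  · have hA := H611R3.ZL.amenable_iff.1 ham
    intro E _ _ _ l r hl hr hlr D hD
    exact hA E inferInstance inferInstance inferInstance l r
      (fun a b x => by rw [hl a b]; rfl) (fun a b x => by rw [hr a b]; rfl)
      (fun a b x => congrArg (fun T : E →L[ℂ] E => T x) (hlr a b)) D hD
  · intro a
    have hx := hrad a
    intro c hc
    change c ∈ quasispectrum ℂ (φ a - ψ a) at hc
    rw [quasispectrum_eq_spectrum_union_zero] at hc
    rcases hc with hc | hc
    · by_contra hc0
      rw [Set.mem_singleton_iff] at hc0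
      rw [Ideal.mem_jacobson_bot] at hx
      have h4 := hx (algebraMap ℂ B (-c⁻¹))
      apply hc
      have h5 : algebraMap ℂ B c - (φ a - ψ a) =
          algebraMap ℂ B c * ((φ a - ψ a) * algebraMap ℂ B (-c⁻¹) + 1) := by
        rw [mul_add, mul_one, mul_left_comm, ← map_mul, mul_neg, mul_inv_cancel₀ hc0, map_neg,
          map_one, mul_neg, mul_one]
        ring
      change IsUnit (algebraMap ℂ B c - (φ a - ψ a))
      rw [h5]
      exact ((IsUnit.mk0 c hc0).map (algebraMap ℂ B)).mul h4
    · exact hc

end Pool.Agent.N677.Known.HomomorphismProperty
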