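import Pool.Agent.Results.MP_d743a5_an.ExplicitThreshold

/-
The frozen statement S06327 (the ball maximises F_q for large q), derived from the starting result
ExplicitThreshold. NOT handed in: it is the full reverse Kohler-Jobin inequality of D. Bucur, J. Lamboley,
M. Nahon and R. Prunier, Sharp quantitative stability of the Dirichlet spectrum near the ball
(arXiv 2304.10916, 2023).
-/

set_option autoImplicit false


namespace Pool.Agent.N677.Known.ReverseKohlerJobin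

/-- In each dimension d ≥ 1 there is Q > 1 such that for every q ≥ Q and every nonempty open set of finite volume, λ₁·T^q/∣Ω∣^((q(d+2)−2)/d) is at most its value on the unit ball. -/
theorem result :
    ∀ d : ℕ, 1 ≤ d → ∃ Q : ℝ, 1 < Q ∧ ∀ q : ℝ, Q ≤ q →
      ∀ Ω : Set (EuclideanSpace ℝ (Fin d)), IsOpen Ω → Ω.Nonempty →
        MeasureTheory.volume Ω < ⊤ →
        sInf {r : ℝ | ∃ u : EuclideanSpace ℝ (Fin d) → ℝ, ContDiff ℝ 1 u ∧
              HasCompactSupport u ∧ tsupport u ⊆ Ω ∧ u ≠ 0 ∧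
              r = (∫ x, ‖fderiv ℝ u x‖ ^ 2) / (∫ x, u x ^ 2)} *
            (sSup {r : ℝ | ∃ u : EuclideanSpace ℝ (Fin d) → ℝ, ContDiff ℝ 1 u ∧
              HasCompactSupport u ∧ tsupport u ⊆ Ω ∧ u ≠ 0 ∧
              r = (∫ x, u x) ^ 2 / (∫ x, ‖fderiv ℝ u x‖ ^ 2)}) ^ q /
            ((MeasureTheory.volume Ω).toReal) ^ ((q * ((d : ℝ) + 2) - 2) / (d : ℝ))
          ≤
        sInf {r : ℝ | ∃ u : EuclideanSpace ℝ (Fin d) → ℝ, ContDiff ℝ 1 u ∧
              HasCompactSupport u ∧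
              tsupport u ⊆ Metric.ball (0 : EuclideanSpace ℝ (Fin d)) 1 ∧ u ≠ 0 ∧
              r = (∫ x, ‖fderiv ℝ u x‖ ^ 2) / (∫ x, u x ^ 2)} *
            (sSup {r : ℝ | ∃ u : EuclideanSpace ℝ (Fin d) → ℝ, ContDiff ℝ 1 u ∧
              HasCompactSupport u ∧
              tsupport u ⊆ Metric.ball (0 : EuclideanSpace ℝ (Fin d)) 1 ∧ u ≠ 0 ∧
              r = (∫ x, u x) ^ 2 / (∫ x, ‖fderiv ℝ u x‖ ^ 2)}) ^ q /
            ((MeasureTheory.volume (Metric.ball (0 : EuclideanSpace ℝ (Fin d)) 1)).toReal) ^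
              ((q * ((d : ℝ) + 2) - 2) / (d : ℝ)) := by
  intro d hd
  obtain ⟨z, hz⟩ := Pool.Agent.Results.MP_d743a5_an.ExplicitThreshold.result.1 d hd
  set A : ℝ := 2 / ((d : ℝ) + 2) * (Real.log (1 - 1 / 2) /
        Real.log (1 - (1 / 2) / (1 / Pool.Agent.Results.MP_d743a5_an.ExplicitThreshold.F
          ((d : ℝ) / 2 + 1) z ^ 2))) with hA
  set B : ℝ := 1 + Real.log ((d : ℝ) * ((d : ℝ) + 2) / z) /
        (-Real.log (1 - (1 / 2) / (1 / Pool.Agent.Results.MP_d743a5_an.ExplicitThreshold.F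
          ((d : ℝ) / 2 + 1) z ^ 2))) with hB
  refine ⟨max 2 (max A B), lt_of_lt_of_le one_lt_two (le_max_left _ _), ?_⟩
  intro q hq Ω ho hne hfin
  have h2 : (2 : ℝ) ≤ q := (le_max_left _ _).trans hq
  have hAq : A ≤ q := ((le_max_left _ _).trans (le_max_right _ _)).trans hq
  have hBq : B ≤ q := ((le_max_right _ _).trans (le_max_right _ _)).trans hq
  exact Pool.Agent.Results.MP_d743a5_an.ExplicitThreshold.result.2.1 d z (1 / 2) q hd hz
    (by norm_num) (by norm_num) (by linarith) hAq hBq Ω ho hne hfin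

end Pool.Agent.N677.Known.ReverseKohlerJobin
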